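import Pool.Agent.Helper49.Petrie.Assembly

/-!
# Fixed point data of torus actions on homotopy complex projective spaces, with two more facts

`LiuAction k n` extends `Helper49.Petrie.TorusAction k n` (numerical data of a smooth almost
effective action of `T^k` on a closed smooth manifold `M` homotopy equivalent to `CP^n`) by two
published facts about such actions.
-/

namespace Pool.Agent.Helper40.Petrie

open Finset Pool.Agent.Helper49.Petrie

/-- The polynomial `T ^ c X - T ^ (-c)` in `X` over the ring of Laurent polynomials in `T`. -/
noncomputable def lin (c : ℤ) : Polynomial (LaurentPolynomial ℤ) :=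
  Polynomial.C (LaurentPolynomial.T c) * Polynomial.X - Polynomial.C (LaurentPolynomial.T (-c))

/-- Numerical data of a smooth almost effective action of `T^k` on a homotopy `CP^n`. -/
structure LiuAction (k n : ℕ) extends TorusAction k n where
  /-- A homotopy equivalence preserves the stable fibre homotopy type of the tangent bundle, and a
  fibre homotopically trivial stable vector bundle over `CP^n`, `n ≥ 2`, has first Pontrjagin
  class divisible by `24` (Adams: the `J`-group of `CP^2` is `ℤ/24`). -/
  div24 : 2 ≤ n → (24 : ℤ) ∣ n + 1 - p 1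
  /-- For a one-parameter subgroup `v` let `I c` be the equivariant index of the Spin^c Dirac
  operator of `M` with canonical class `c x`, a Laurent polynomial in `T = t ^ (1/2)`; its value
  at `T = 1` is given by the index theorem. Let `A ≡ n + 1` modulo 2 and let `V` be the sum of the
  line bundles `L ⊗ t ^ (c j)`, `j < A`; then `M ⊕ V` is spin. If the equivariant class
  `p_1(V) - p_1(M)` is `- e u^2` with `e > 0` (`u` the generator of `H^2(BS^1)`), that is, if
  `A = p_1`, `2 ∑ c_j = β(v)` and `∑ c_j ^ 2 < γ(v)`, then the equivariant index of the Dirac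
  operator twisted by the difference of the half spin bundles of `V`, which is
  `∏_j (L ^ (1/2) t ^ (c_j / 2) - L ^ (-1/2) t ^ (-c_j / 2))` (expand `∏_j lin (c j)` in powers of
  `X = L` and multiply by `L ^ (-A/2)`), vanishes (K. Liu, On modular
  invariance and rigidity theorems, J. Differential Geom. 41, 1995; Dessai, Rigidity theorems for
  Spin^c-manifolds, Topology 39, 2000). -/
  liu : ∀ v : Fin k → ℤ, ∃ I : ℤ → LaurentPolynomial ℤ,
    (∀ c : ℤ, Even (c + (n + 1)) →
      LaurentPolynomial.eval₂ (Int.castRingHom ℂ) 1 (I c) = diracIndex n r c) ∧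
    ∀ (A : ℕ) (c : Fin A → ℤ), Even ((A : ℤ) + (n + 1)) → (A : ℤ) = p 1 →
      2 * ∑ j, c j = β ⬝ᵥ v → ∑ j, c j ^ 2 < v ⬝ᵥ (γ.mulVec v) →
      ∑ m ∈ range (A + 1),
        (∏ j, lin (c j)).coeff m * I (2 * m - A) = 0

end Pool.Agent.Helper40.Petrie
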