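import Pool.Agent.Helper49.Petrie.Assembly

/-!
# The trace inequality for rank two tori
-/

namespace Pool.Agent.Helper40.Petrie

open Finset Pool.Agent.Helper49.Petrie Pool.Agent.Helper49.Petrie.E
  Pool.Agent.Helper49.Petrie.H

section form

variable {N : ℕ} (y z : Fin N → ℤ) (A B C a : ℤ)
  (H1 : ∀ i (s t : ℤ), (y i * s + z i * t) ^ 2 ≤ A * s ^ 2 + B * s * t + C * t ^ 2)
  (H2 : ∀ i (s t : ℤ), a * (A * s ^ 2 + B * s * t + C * t ^ 2 - (y i * s + z i * t) ^ 2) ≤
    ∑ l, ((y l - y i) * s + (z l - z i) * t) ^ 2)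
  (E : ∀ s t : ℤ, (∀ i l, y i * s + z i * t = y l * s + z l * t) → s = 0 ∧ t = 0)

include H1 E

theorem form_pos (s t : ℤ) (h : s ≠ 0 ∨ t ≠ 0) :
    0 < A * s ^ 2 + B * s * t + C * t ^ 2 := by
  by_contra hcon
  push Not at hcon
  have h0 : ∀ i, y i * s + z i * t = 0 := by
    intro i
    have := H1 i s t
    have h2 : (y i * s + z i * t) ^ 2 ≤ 0 := by linarith
    exact pow_eq_zero_iff two_ne_zero |>.1 (le_antisymm h2 (sq_nonneg _))
  obtain ⟨h1, h2⟩ := E s t (fun i l => by rw [h0 i, h0 l])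
  rcases h with h | h
  · exact h h1
  · exact h h2

theorem disc_pos : 0 < 4 * A * C - B ^ 2 := by
  have hA := form_pos y z A B C H1 E 1 0 (Or.inl one_ne_zero)
  have hA' : 0 < A := by linarith
  have h2 := form_pos y z A B C H1 E (-B) (2 * A) (Or.inr (by omega))
  have h3 : A * (-B) ^ 2 + B * (-B) * (2 * A) + C * (2 * A) ^ 2 = A * (4 * A * C - B ^ 2) := by
    ring
  rw [h3] at h2
  exact (mul_pos_iff_of_pos_left hA').1 h2

omit E in
theorem disc_le (i : Fin N) :
    4 * (A * z i ^ 2 - B * z i * y i + C * y i ^ 2) ≤ 4 * A * C - B ^ 2 := by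
  have hp : ∀ s t : ℤ, 0 ≤ (A - y i ^ 2) * s ^ 2 + (B - 2 * y i * z i) * s * t
      + (C - z i ^ 2) * t ^ 2 := by
    intro s t
    have := H1 i s t
    nlinarith
  have key : 0 ≤ 4 * (A - y i ^ 2) * (C - z i ^ 2) - (B - 2 * y i * z i) ^ 2 := by
    have hA := hp 1 0
    rcases eq_or_lt_of_le (show 0 ≤ A - y i ^ 2 by linarith) with h | h
    · have h1 : B - 2 * y i * z i = 0 := by
        by_contra hne
        have h2 := hp (-(C - z i ^ 2 + 1) * (B - 2 * y i * z i)) 1
        rw [← h] at h2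
        have h3 : 0 < (B - 2 * y i * z i) ^ 2 := by positivity
        have h4 := hp 0 1
        nlinarith
      rw [h1, ← h]
      simp
    · have h2 := hp (-(B - 2 * y i * z i)) (2 * (A - y i ^ 2))
      have h3 : (A - y i ^ 2) * (-(B - 2 * y i * z i)) ^ 2 +
          (B - 2 * y i * z i) * (-(B - 2 * y i * z i)) * (2 * (A - y i ^ 2)) +
          (C - z i ^ 2) * (2 * (A - y i ^ 2)) ^ 2 =
          (A - y i ^ 2) * (4 * (A - y i ^ 2) * (C - z i ^ 2) - (B - 2 * y i * z i) ^ 2) := by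
        ring
      rw [h3] at h2
      exact nonneg_of_mul_nonneg_right h2 h
  nlinarith [key]

omit H1 E in
theorem disc_lt (i : Fin N)
    (H1' : ∀ s t : ℤ, (s ≠ 0 ∨ t ≠ 0) →
      (y i * s + z i * t) ^ 2 < A * s ^ 2 + B * s * t + C * t ^ 2) :
    4 * (A * z i ^ 2 - B * z i * y i + C * y i ^ 2) < 4 * A * C - B ^ 2 := by
  have hp : ∀ s t : ℤ, (s ≠ 0 ∨ t ≠ 0) → 0 < (A - y i ^ 2) * s ^ 2 +
      (B - 2 * y i * z i) * s * t + (C - z i ^ 2) * t ^ 2 := by
    intro s t h
    have := H1' s t h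
    nlinarith
  have key : 0 < 4 * (A - y i ^ 2) * (C - z i ^ 2) - (B - 2 * y i * z i) ^ 2 := by
    have hA := hp 1 0 (Or.inl one_ne_zero)
    have h : 0 < A - y i ^ 2 := by linarith
    have h2 := hp (-(B - 2 * y i * z i)) (2 * (A - y i ^ 2)) (Or.inr (by omega))
    have h3 : (A - y i ^ 2) * (-(B - 2 * y i * z i)) ^ 2 +
        (B - 2 * y i * z i) * (-(B - 2 * y i * z i)) * (2 * (A - y i ^ 2)) +
        (C - z i ^ 2) * (2 * (A - y i ^ 2)) ^ 2 =
        (A - y i ^ 2) * (4 * (A - y i ^ 2) * (C - z i ^ 2) - (B - 2 * y i * z i) ^ 2) := by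
      ring
    rw [h3] at h2
    exact (mul_pos_iff_of_pos_left h).1 h2
  nlinarith [key]

include H2

theorem sum_bound :
    2 * a * (4 * A * C - B ^ 2) ≤ 4 * ∑ i, (A * z i ^ 2 - B * z i * y i + C * y i ^ 2) := by
  set P := ∑ i, y i ^ 2 with hP
  set Q := ∑ i, z i ^ 2 with hQ
  set R := ∑ i, y i * z i with hR
  have hm : ∑ i, (A * z i ^ 2 - B * z i * y i + C * y i ^ 2) = A * Q - B * R + C * P := by
    rw [sum_add_distrib, sum_sub_distrib, hP, hQ, hR, mul_sum, mul_sum, mul_sum]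
    congr 2
    exact sum_congr rfl fun i _ => by ring
  have hΔ := disc_pos y z A B C H1 E
  have hA : 0 < A := by
    have := form_pos y z A B C H1 E 1 0 (Or.inl one_ne_zero)
    linarith
  -- the inequality from H2
  have h1 : a * (A * Q - B * R + C * P) ≤ 2 * (P * Q - R ^ 2) := by
    rw [← hm, mul_sum]
    have h2 : ∀ i ∈ (univ : Finset (Fin N)), a * (A * z i ^ 2 - B * z i * y i + C * y i ^ 2) ≤
        ∑ l, (y i * z l - y l * z i) ^ 2 := by
      intro i _
      have := H2 i (-(z i)) (y i)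
      have e1 : A * (-(z i)) ^ 2 + B * (-(z i)) * y i + C * y i ^ 2 -
          (y i * -(z i) + z i * y i) ^ 2 = A * z i ^ 2 - B * z i * y i + C * y i ^ 2 := by ring
      rw [e1] at this
      refine this.trans (le_of_eq (sum_congr rfl fun l _ => by ring))
    refine (sum_le_sum h2).trans (le_of_eq ?_)
    have h3 : ∀ i ∈ (univ : Finset (Fin N)), ∑ l, (y i * z l - y l * z i) ^ 2 =
        y i ^ 2 * Q - 2 * (y i * z i) * R + z i ^ 2 * P := by
      intro i _
      have : ∀ l ∈ (univ : Finset (Fin N)), (y i * z l - y l * z i) ^ 2 =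
          y i ^ 2 * z l ^ 2 - 2 * (y i * z i) * (y l * z l) + z i ^ 2 * y l ^ 2 := by
        intro l _
        ring
      rw [sum_congr rfl this, sum_add_distrib, sum_sub_distrib, ← mul_sum, ← mul_sum, ← mul_sum]
    rw [sum_congr rfl h3, sum_add_distrib, sum_sub_distrib, ← sum_mul, ← sum_mul, ← sum_mul,
      ← mul_sum, ← hP, ← hQ, ← hR]
    ring
  -- the determinant inequality
  have h2 : (4 * A * C - B ^ 2) * (P * Q - R ^ 2) ≤ (A * Q - B * R + C * P) ^ 2 := by
    have h3 : 4 * A ^ 2 * ((A * Q - B * R + C * P) ^ 2 -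
        (4 * A * C - B ^ 2) * (P * Q - R ^ 2)) =
        ((4 * A * C - B ^ 2) * P - 2 * A * (A * Q - B * R + C * P)) ^ 2 +
          (4 * A * C - B ^ 2) * (2 * A * R - B * P) ^ 2 := by
      ring
    have h4 : 0 ≤ 4 * A ^ 2 * ((A * Q - B * R + C * P) ^ 2 -
        (4 * A * C - B ^ 2) * (P * Q - R ^ 2)) := by
      rw [h3]
      have := mul_nonneg hΔ.le (sq_nonneg (2 * A * R - B * P))
      have h5 := sq_nonneg ((4 * A * C - B ^ 2) * P - 2 * A * (A * Q - B * R + C * P))
      linarith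
    have h5 : 0 < 4 * A ^ 2 := by positivity
    have := nonneg_of_mul_nonneg_right h4 h5
    linarith
  -- positivity of m
  have hm0 : 0 < A * Q - B * R + C * P := by
    rw [← hm]
    have hnn : ∀ i ∈ (univ : Finset (Fin N)),
        0 ≤ A * z i ^ 2 - B * z i * y i + C * y i ^ 2 := by
      intro i _
      have := H1 i (-(z i)) (y i)
      have e1 : A * (-(z i)) ^ 2 + B * (-(z i)) * y i + C * y i ^ 2 =
        A * z i ^ 2 - B * z i * y i + C * y i ^ 2 := by ring
      rw [e1] at this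
      exact (sq_nonneg _).trans this
    refine lt_of_le_of_ne (sum_nonneg hnn) fun h0 => ?_
    have h3 := (sum_eq_zero_iff_of_nonneg hnn).1 h0.symm
    have h4 : ∀ i, y i = 0 ∧ z i = 0 := by
      intro i
      by_contra hne
      have h5 : -(z i) ≠ 0 ∨ y i ≠ 0 := by
        by_contra h6
        push Not at h6
        exact hne ⟨h6.2, neg_eq_zero.1 h6.1⟩
      have h7 := form_pos y z A B C H1 E (-(z i)) (y i) h5
      have h8 := h3 i (mem_univ i)
      have e1 : A * (-(z i)) ^ 2 + B * (-(z i)) * y i + C * y i ^ 2 =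
        A * z i ^ 2 - B * z i * y i + C * y i ^ 2 := by ring
      rw [e1, h8] at h7
      exact lt_irrefl _ h7
    have h9 := E 1 0 (fun i l => by simp [(h4 i).1, (h4 l).1])
    exact one_ne_zero h9.1
  rw [hm]
  set m := A * Q - B * R + C * P with hmdef
  -- a m Δ ≤ 2 m²
  have h3 : a * m * (4 * A * C - B ^ 2) ≤ 2 * m ^ 2 := by
    have := mul_le_mul_of_nonneg_right h1 hΔ.le
    nlinarith
  have h4 : m * (a * (4 * A * C - B ^ 2)) ≤ m * (2 * m) := by nlinarith
  have h5 := le_of_mul_le_mul_left h4 hm0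
  nlinarith

theorem ineq_le : 2 * a ≤ N := by
  have h1 := sum_bound y z A B C a H1 H2 E
  have h2 : 4 * ∑ i, (A * z i ^ 2 - B * z i * y i + C * y i ^ 2) ≤
      N * (4 * A * C - B ^ 2) := by
    rw [mul_sum]
    refine (sum_le_sum fun i _ => disc_le y z A B C H1 i).trans (le_of_eq ?_)
    rw [sum_const, card_univ, Fintype.card_fin, nsmul_eq_mul]
  have hΔ := disc_pos y z A B C H1 E
  exact le_of_mul_le_mul_right (h1.trans h2) hΔ

theorem ineq_lt (hN : 0 < N)
    (H1' : ∀ i, ∀ s t : ℤ, (s ≠ 0 ∨ t ≠ 0) →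
      (y i * s + z i * t) ^ 2 < A * s ^ 2 + B * s * t + C * t ^ 2) : 2 * a < N := by
  have h1 := sum_bound y z A B C a H1 H2 E
  have h2 : 4 * ∑ i, (A * z i ^ 2 - B * z i * y i + C * y i ^ 2) <
      N * (4 * A * C - B ^ 2) := by
    rw [mul_sum]
    refine lt_of_lt_of_le (sum_lt_sum_of_nonempty ?_
      fun i _ => disc_lt y z A B C i (H1' i)) (le_of_eq ?_)
    · exact ⟨⟨0, hN⟩, mem_univ _⟩
    · rw [sum_const, card_univ, Fintype.card_fin, nsmul_eq_mul]
  have hΔ := disc_pos y z A B C H1 E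
  exact lt_of_mul_lt_mul_right (h1.trans_lt h2) hΔ.le

end form

end Pool.Agent.Helper40.Petrie
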