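import Pool.Agent.Helper40.Petrie.Span
import Pool.Agent.Helper40.Petrie.Ineq

/-!
# Assembly
-/

namespace Pool.Agent.Helper40.Petrie

open Finset Pool.Agent.Helper49.Petrie Pool.Agent.Helper49.Petrie.E
  Pool.Agent.Helper49.Petrie.H

/-- the sum of the squares of the tangent weights is positive -/
theorem sum_sq_pos {k n : ℕ} (X : TorusAction k n) (i : Fin (n + 1)) (v : Fin k → ℤ)
    (hv : v ≠ 0) : 0 < ∑ j, (X.w i j ⬝ᵥ v) ^ 2 := by
  by_contra hcon
  push Not at hcon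
  have h0 : ∀ j, X.w i j ⬝ᵥ v = 0 := by
    have h1 := (sum_eq_zero_iff_of_nonneg (s := (univ : Finset (Fin n)))
      (f := fun j => (X.w i j ⬝ᵥ v) ^ 2) fun j _ => sq_nonneg _).1
      (le_antisymm hcon (sum_nonneg fun j _ => sq_nonneg _))
    intro j
    exact pow_eq_zero_iff two_ne_zero |>.1 (h1 j (mem_univ j))
  have h2 := (X.circle v).smith i 0 (Or.inl rfl)
  have h3 : cntW (fun j => X.w i j ⬝ᵥ v) 0 = n := by
    unfold cntW
    rw [filter_true_of_mem fun j _ => by simp [h0 j]]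
    simp
  rw [h3] at h2
  have h4 : ∀ l, X.a l ⬝ᵥ v = X.a i ⬝ᵥ v := by
    intro l
    rcases eq_or_ne l i with rfl | hl
    · rfl
    · by_contra hne
      have h5 : cntA (fun i => X.a i ⬝ᵥ v) i 0 < n := by
        unfold cntA
        have h6 : (univ.filter fun m => m ≠ i ∧ ((0 : ℕ) : ℤ) ∣ X.a m ⬝ᵥ v - X.a i ⬝ᵥ v) ⊆
            (univ.erase i).erase l := by
          intro m hm
          rw [mem_filter] at hm
          rw [mem_erase, mem_erase]
          refine ⟨?_, hm.2.1, mem_univ _⟩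
          rintro rfl
          apply hne
          have := hm.2.2
          rw [Nat.cast_zero, zero_dvd_iff] at this
          linarith
        refine (card_le_card h6).trans_lt ?_
        rw [card_erase_of_mem (mem_erase.2 ⟨hl, mem_univ _⟩), card_erase_of_mem (mem_univ _),
          card_univ, Fintype.card_fin]
        have hn : 0 < n := by
          rcases Nat.eq_zero_or_pos n with rfl | hn
          · exact absurd (Fin.ext (by omega)) hl
          · exact hn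
        omega
      omega
  exact hv (X.eff v fun i' l' => by rw [h4 i', h4 l'])

/-- Theorem A for one circle. -/
theorem dirac_zero {k n : ℕ} (X : LiuAction k n) (hp : X.p 1 = n + 1) (v : Fin k → ℤ)
    (hv : 0 < 4 * ((n : ℤ) + 1) * (v ⬝ᵥ (X.γ.mulVec v)) - (X.β ⬝ᵥ v) ^ 2) :
    ∀ c : ℤ, Even (c + (n + 1)) → |c| < n + 1 → diracIndex n X.r c = 0 := by
  intro c hc hcn
  set A : ℕ := n + 1 with hA
  have hA1 : (1 : ℤ) ≤ A := by
    rw [hA]
    push_cast
    linarith [Nat.cast_nonneg (α := ℤ) n]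
  have hAn : (A : ℤ) = n + 1 := by rw [hA]; push_cast; ring
  set M : ℤ := 4 * (A : ℤ) ^ 2 with hM
  obtain ⟨I, hI1, hI2⟩ := X.liu (M • v)
  have hβ : X.β ⬝ᵥ (M • v) = M * (X.β ⬝ᵥ v) := by rw [dotProduct_smul, smul_eq_mul]
  have hγ : (M • v) ⬝ᵥ (X.γ.mulVec (M • v)) = M ^ 2 * (v ⬝ᵥ (X.γ.mulVec v)) := by
    rw [Matrix.mulVec_smul, smul_dotProduct, dotProduct_smul, smul_eq_mul, smul_eq_mul]
    ring
  set b : ℤ := 2 * A * (X.β ⬝ᵥ v) with hb
  have hz := lam_zero A I b (by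
    intro d hd1 hd2
    refine hI2 A d ?_ ?_ ?_ ?_
    · rw [hAn]
      exact ⟨(n : ℤ) + 1, by ring⟩
    · rw [hp, hAn]
    · rw [hβ, hd1, hM, hb]
      ring
    · rw [hγ]
      have h1 : ∑ j, d j ^ 2 = ∑ j, (d j - b) ^ 2 + A * b ^ 2 := by
        have h2 : ∀ j ∈ (univ : Finset (Fin A)), d j ^ 2 =
            (d j - b) ^ 2 + (2 * b * d j - b ^ 2) := by
          intro j _
          ring
        rw [sum_congr rfl h2, sum_add_distrib, sum_sub_distrib, ← mul_sum, hd1, sum_const,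
          card_univ, Fintype.card_fin, nsmul_eq_mul]
        ring
      rw [h1]
      have h3 : M ^ 2 * (v ⬝ᵥ (X.γ.mulVec v)) = 4 * (A : ℤ) ^ 3 *
          (4 * ((n : ℤ) + 1) * (v ⬝ᵥ (X.γ.mulVec v)) - (X.β ⬝ᵥ v) ^ 2) + A * b ^ 2 := by
        rw [hM, hb, ← hAn]
        ring
      rw [h3]
      have h4 : 4 * (A : ℤ) ^ 3 * 1 ≤ 4 * (A : ℤ) ^ 3 *
          (4 * ((n : ℤ) + 1) * (v ⬝ᵥ (X.γ.mulVec v)) - (X.β ⬝ᵥ v) ^ 2) := by
        apply mul_le_mul_of_nonneg_left _ (by positivity)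
        linarith
      have h5 : 2 * (A : ℤ) ^ 2 ≤ 4 * (A : ℤ) ^ 3 * 1 := by
        have : (A : ℤ) ^ 2 * 1 ≤ (A : ℤ) ^ 2 * A := mul_le_mul_of_nonneg_left hA1 (by positivity)
        nlinarith
      linarith)
  obtain ⟨q, hq⟩ := hc
  have hq1 : -(A : ℤ) < c := by
    rw [hAn]
    exact (abs_lt.1 hcn).1
  have hq2 : c < A := by
    rw [hAn]
    exact (abs_lt.1 hcn).2
  have hq0 : 0 ≤ q := by omega
  obtain ⟨m, rfl⟩ := Int.eq_ofNat_of_zero_le hq0
  have h1 := hz m (by omega) (by omega)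
  have h2 : (2 : ℤ) * m - A = c := by omega
  rw [h2] at h1
  rw [← hI1 c ⟨m, hq⟩, h1, map_zero]

theorem std_of_p1 {k n : ℕ} (hk : 2 ≤ k) (X : LiuAction k n) (hp : X.p 1 = n + 1) (s : ℕ)
    (hs : 2 * s ≤ n) : X.p s = (n + 1).choose s := by
  -- a circle with 2 α a_0 + β = 0
  obtain ⟨v, hv, hv0⟩ : ∃ v : Fin k → ℤ, v ≠ 0 ∧
      2 * ((n : ℤ) + 1) * (X.a 0 ⬝ᵥ v) + X.β ⬝ᵥ v = 0 := by
    set x : Fin k → ℤ := (2 * ((n : ℤ) + 1)) • X.a 0 + X.β with hx
    have hdot : ∀ v, 2 * ((n : ℤ) + 1) * (X.a 0 ⬝ᵥ v) + X.β ⬝ᵥ v = x ⬝ᵥ v := by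
      intro v
      rw [hx, add_dotProduct, smul_dotProduct, smul_eq_mul]
    simp only [hdot]
    set i0 : Fin k := ⟨0, by omega⟩ with hi0
    set i1 : Fin k := ⟨1, by omega⟩ with hi1
    have hne : i0 ≠ i1 := by
      rw [hi0, hi1]
      simp
    by_cases h : x i0 = 0
    · refine ⟨Pi.single i0 1, ?_, ?_⟩
      · intro h1
        have := congrFun h1 i0
        simp at this
      · rw [dotProduct_single, h]
        simp
    · refine ⟨Pi.single i1 (x i0) - Pi.single i0 (x i1), ?_, ?_⟩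
      · intro h1
        have := congrFun h1 i1
        simp only [Pi.sub_apply, Pi.single_eq_same, Pi.single_eq_of_ne hne.symm, sub_zero,
          Pi.zero_apply] at this
        exact h this
      · rw [dotProduct_sub, dotProduct_single, dotProduct_single]
        ring
  have h1 := sum_sq_pos X.toTorusAction 0 v hv
  rw [X.pont, hp] at h1
  have h2 := dirac_zero X hp v (by
    have h3 : X.β ⬝ᵥ v = -(2 * ((n : ℤ) + 1) * (X.a 0 ⬝ᵥ v)) := by linarith
    rw [h3] at h1 ⊢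
    have h4 : (0 : ℤ) < n + 1 := by positivity
    nlinarith)
  have h3 := dirac_std n X.r h2 s hs
  have h4 := X.p_eq s hs
  rw [h3] at h4
  exact_mod_cast h4

section ineq

variable {n : ℕ} (X : TorusAction 2 n)

theorem eff2 (s t : ℤ) (h : ∀ i l, X.a i 0 * s + X.a i 1 * t = X.a l 0 * s + X.a l 1 * t) :
    s = 0 ∧ t = 0 := by
  have h1 := X.eff ![s, t] (fun i l => by
    rw [dot2, dot2]
    simpa using h i l)
  exact ⟨by simpa using congrFun h1 0, by simpa using congrFun h1 1⟩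

theorem gam2 (s t : ℤ) : (![s, t] : Fin 2 → ℤ) ⬝ᵥ (X.γ.mulVec ![s, t]) =
    X.γ 0 0 * s ^ 2 + (X.γ 0 1 + X.γ 1 0) * s * t + X.γ 1 1 * t ^ 2 := by
  simp [dotProduct, Matrix.mulVec, Fin.sum_univ_two]
  ring

theorem lower : -((n : ℤ) + 1) < 2 * X.p 1 := by
  by_contra hcon
  push Not at hcon
  have hn : (0 : ℤ) < n + 1 := by positivity
  set a : ℤ := -(X.p 1) with ha
  have ha0 : 0 < a := by omega
  have hfi : ∀ i (s t : ℤ), 4 * a * ∑ j, (X.w i j ⬝ᵥ ![s, t]) ^ 2 =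
      ((4 * a * X.γ 0 0 + X.β 0 ^ 2) * s ^ 2 +
        (4 * a * (X.γ 0 1 + X.γ 1 0) + 2 * X.β 0 * X.β 1) * s * t +
        (4 * a * X.γ 1 1 + X.β 1 ^ 2) * t ^ 2) -
      ((2 * a * X.a i 0 - X.β 0) * s + (2 * a * X.a i 1 - X.β 1) * t) ^ 2 := by
    intro i s t
    rw [X.pont, gam2, dot2, dot2]
    simp only [Matrix.cons_val_zero, Matrix.cons_val_one]
    rw [show X.p 1 = -a by rw [ha]; ring]
    ring
  have key := ineq_lt (N := n + 1) (fun i => 2 * a * X.a i 0 - X.β 0)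
    (fun i => 2 * a * X.a i 1 - X.β 1)
    (4 * a * X.γ 0 0 + X.β 0 ^ 2) (4 * a * (X.γ 0 1 + X.γ 1 0) + 2 * X.β 0 * X.β 1)
    (4 * a * X.γ 1 1 + X.β 1 ^ 2) a
    (by
      intro i s t
      have h1 := hfi i s t
      have h2 : 0 ≤ ∑ j, (X.w i j ⬝ᵥ ![s, t]) ^ 2 := sum_nonneg fun j _ => sq_nonneg _
      have h3 : 0 ≤ 4 * a * ∑ j, (X.w i j ⬝ᵥ ![s, t]) ^ 2 := by positivity
      linarith)
    (by
      intro i s t
      have h1 := hfi i s t
      have h2 := Dsq_nonneg X i ![s, t]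
      unfold Dsq at h2
      have h3 : ∑ l, ((2 * a * X.a l 0 - X.β 0 - (2 * a * X.a i 0 - X.β 0)) * s +
          (2 * a * X.a l 1 - X.β 1 - (2 * a * X.a i 1 - X.β 1)) * t) ^ 2 =
          4 * a ^ 2 * ∑ l, ((X.a l - X.a i) ⬝ᵥ ![s, t]) ^ 2 := by
        rw [mul_sum]
        refine sum_congr rfl fun l _ => ?_
        rw [dot2]
        simp only [Pi.sub_apply, Matrix.cons_val_zero, Matrix.cons_val_one]
        ring
      rw [h3, ← h1]
      have h4 : 0 ≤ 4 * a ^ 2 * (∑ l, ((X.a l - X.a i) ⬝ᵥ ![s, t]) ^ 2 -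
        ∑ j, (X.w i j ⬝ᵥ ![s, t]) ^ 2) := mul_nonneg (by positivity) h2
      nlinarith)
    (by
      intro s t h
      refine eff2 X s t fun i l => ?_
      have h1 := h i l
      have h2 : 2 * a * (X.a i 0 * s + X.a i 1 * t) = 2 * a * (X.a l 0 * s + X.a l 1 * t) := by
        linarith
      exact mul_left_cancel₀ (by positivity) h2)
    (by omega)
    (by
      intro i s t hst
      have h1 := hfi i s t
      have h2 : 0 < ∑ j, (X.w i j ⬝ᵥ ![s, t]) ^ 2 := by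
        apply sum_sq_pos X i
        intro h0
        rcases hst with h3 | h3
        · exact h3 (by simpa using congrFun h0 0)
        · exact h3 (by simpa using congrFun h0 1)
      have h3 : 0 < 4 * a * ∑ j, (X.w i j ⬝ᵥ ![s, t]) ^ 2 := by positivity
      linarith)
  push_cast at key
  omega

theorem upper : 2 * X.p 1 ≤ 3 * ((n : ℤ) + 1) := by
  by_contra hcon
  push Not at hcon
  have hn : (0 : ℤ) < n + 1 := by positivity
  set a : ℤ := X.p 1 - (n + 1) with ha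
  have ha0 : 0 < a := by omega
  set σ0 : ℤ := ∑ l, X.a l 0 with hσ0
  set σ1 : ℤ := ∑ l, X.a l 1 with hσ1
  set P : ℤ := ∑ l, X.a l 0 ^ 2 with hP
  set R : ℤ := ∑ l, X.a l 0 * X.a l 1 with hR
  set Q : ℤ := ∑ l, X.a l 1 ^ 2 with hQ
  have hDi : ∀ i (s t : ℤ), 4 * a * Dsq X i ![s, t] =
      ((4 * a * (P - X.γ 0 0) + (2 * σ0 + X.β 0) ^ 2) * s ^ 2 +
        (4 * a * (2 * R - (X.γ 0 1 + X.γ 1 0)) +
          2 * (2 * σ0 + X.β 0) * (2 * σ1 + X.β 1)) * s * t +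
        (4 * a * (Q - X.γ 1 1) + (2 * σ1 + X.β 1) ^ 2) * t ^ 2) -
      ((2 * a * X.a i 0 + (2 * σ0 + X.β 0)) * s +
        (2 * a * X.a i 1 + (2 * σ1 + X.β 1)) * t) ^ 2 := by
    intro i s t
    have e1 : ∑ l, X.a l ⬝ᵥ ![s, t] = σ0 * s + σ1 * t := by
      rw [hσ0, hσ1, sum_mul, sum_mul, ← sum_add_distrib]
      refine sum_congr rfl fun l _ => ?_
      rw [dot2]
      simp
    have e2 : ∑ l, (X.a l ⬝ᵥ ![s, t]) ^ 2 = P * s ^ 2 + 2 * R * (s * t) + Q * t ^ 2 := by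
      rw [hP, hR, hQ, sum_mul, mul_sum, sum_mul, sum_mul, ← sum_add_distrib, ← sum_add_distrib]
      refine sum_congr rfl fun l _ => ?_
      rw [dot2]
      simp only [Matrix.cons_val_zero, Matrix.cons_val_one]
      ring
    rw [Dsq_eq, e1, e2, gam2, dot2, dot2]
    simp only [Matrix.cons_val_zero, Matrix.cons_val_one]
    rw [show X.p 1 = a + (n + 1) by rw [ha]; ring]
    ring
  clear_value σ0 σ1 P R Q
  have key := ineq_le (N := n + 1) (fun i => 2 * a * X.a i 0 + (2 * σ0 + X.β 0))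
    (fun i => 2 * a * X.a i 1 + (2 * σ1 + X.β 1))
    (4 * a * (P - X.γ 0 0) + (2 * σ0 + X.β 0) ^ 2)
    (4 * a * (2 * R - (X.γ 0 1 + X.γ 1 0)) + 2 * (2 * σ0 + X.β 0) * (2 * σ1 + X.β 1))
    (4 * a * (Q - X.γ 1 1) + (2 * σ1 + X.β 1) ^ 2) a
    (by
      intro i s t
      have h1 := hDi i s t
      have h2 := Dsq_nonneg X i ![s, t]
      have h3 : 0 ≤ 4 * a * Dsq X i ![s, t] := by positivity
      linarith)
    (by
      intro i s t
      have h1 := hDi i s t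
      have h2 : 0 ≤ ∑ j, (X.w i j ⬝ᵥ ![s, t]) ^ 2 := sum_nonneg fun j _ => sq_nonneg _
      have h3 : ∑ l, ((2 * a * X.a l 0 + (2 * σ0 + X.β 0) -
          (2 * a * X.a i 0 + (2 * σ0 + X.β 0))) * s +
          (2 * a * X.a l 1 + (2 * σ1 + X.β 1) -
          (2 * a * X.a i 1 + (2 * σ1 + X.β 1))) * t) ^ 2 =
          4 * a ^ 2 * ∑ l, ((X.a l - X.a i) ⬝ᵥ ![s, t]) ^ 2 := by
        rw [mul_sum]
        refine sum_congr rfl fun l _ => ?_
        rw [dot2]
        simp only [Pi.sub_apply, Matrix.cons_val_zero, Matrix.cons_val_one]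
        ring
      rw [h3, ← h1]
      unfold Dsq
      have h4 : 0 ≤ 4 * a ^ 2 * ∑ j, (X.w i j ⬝ᵥ ![s, t]) ^ 2 := by positivity
      nlinarith)
    (by
      intro s t h
      refine eff2 X s t fun i l => ?_
      have h1 := h i l
      have h2 : 2 * a * (X.a i 0 * s + X.a i 1 * t) = 2 * a * (X.a l 0 * s + X.a l 1 * t) := by
        linarith
      exact mul_left_cancel₀ (by positivity) h2)
  push_cast at key
  omega

end ineq

/-- The inequality for `p_1`. -/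
theorem p1_bounds {k n : ℕ} (hk : 2 ≤ k) (X : TorusAction k n) :
    -((n : ℤ) + 1) < 2 * X.p 1 ∧ 2 * X.p 1 ≤ 3 * ((n : ℤ) + 1) := by
  set i0 : Fin k := ⟨0, by omega⟩ with hi0
  set i1 : Fin k := ⟨1, by omega⟩ with hi1
  have hne : i0 ≠ i1 := by
    rw [hi0, hi1]
    simp
  have hind : ∀ s t : ℤ, s • (Pi.single i0 1 : Fin k → ℤ) + t • (Pi.single i1 1 : Fin k → ℤ) = 0 →
      s = 0 ∧ t = 0 := by
    intro s t h
    have h1 := congrFun h i0
    have h2 := congrFun h i1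
    simp only [Pi.add_apply, Pi.smul_apply, Pi.single_eq_same, smul_eq_mul, mul_one,
      Pi.single_eq_of_ne hne, Pi.single_eq_of_ne hne.symm, mul_zero, add_zero, zero_add,
      Pi.zero_apply] at h1 h2
    exact ⟨h1, h2⟩
  exact ⟨lower (pull X _ _ hind), upper (pull X _ _ hind)⟩

theorem p_zero {k n : ℕ} (X : TorusAction k n) : X.p 0 = 1 := by
  have h := X.p_eq 0 (by omega)
  rw [Polynomial.coeff_zero_prod] at h
  simp at h
  exact_mod_cast h

/-- `p_1` is standard for `n ≤ 15`. -/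
theorem p1_std {k n : ℕ} (hk : 2 ≤ k) (X : LiuAction k n) (hn : n ≤ 15) (hn2 : 2 ≤ n) :
    X.p 1 = n + 1 := by
  obtain ⟨h1, h2⟩ := p1_bounds hk X.toTorusAction
  have h3 := X.div24 hn2
  omega

theorem std_low {k n : ℕ} (hk : 2 ≤ k) (X : LiuAction k n) (hn : n ≤ 15) (s : ℕ)
    (hs : 2 * s ≤ n) : X.p s = (n + 1).choose s := by
  rcases Nat.lt_or_ge n 2 with h | h
  · obtain rfl : s = 0 := by omega
    rw [p_zero X.toTorusAction]
    simp
  · exact std_of_p1 hk X (p1_std hk X hn h) s hs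

end Pool.Agent.Helper40.Petrie
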