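import Pool.Agent.Helper40.Petrie.Defs

/-!
# Vanishing of all indices in the middle range
-/

namespace Pool.Agent.Helper40.Petrie

open Finset Polynomial

local instance : IsDomain (LaurentPolynomial ℤ) := inferInstance

theorem T_ne_of_ne {m n : ℤ} (h : m ≠ n) :
    (LaurentPolynomial.T m : LaurentPolynomial ℤ) ≠ LaurentPolynomial.T n := by
  intro h2
  have h3 := congrArg (fun f : LaurentPolynomial ℤ => f.coeff m) h2
  simp only [LaurentPolynomial.T_apply, if_true, if_neg (Ne.symm h)] at h3
  exact one_ne_zero h3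

/-- `T ^ (-2) - T ^ 2` is not zero. -/
theorem delta_ne : (LaurentPolynomial.T (-2) - LaurentPolynomial.T 2 : LaurentPolynomial ℤ) ≠ 0 :=
  sub_ne_zero.2 (T_ne_of_ne (by norm_num))

theorem comb_one (b : ℤ) : C (LaurentPolynomial.T (2 : ℤ)) * lin b - lin (b + 2) =
    C (LaurentPolynomial.T (-b) * (LaurentPolynomial.T (-2) - LaurentPolynomial.T 2) :
      LaurentPolynomial ℤ) := by
  unfold lin
  rw [mul_sub, ← mul_assoc, ← C_mul, ← C_mul, ← LaurentPolynomial.T_add, ← LaurentPolynomial.T_add,
    add_comm 2 b]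
  rw [mul_sub, ← LaurentPolynomial.T_add, ← LaurentPolynomial.T_add, C_sub]
  have h1 : -(b + 2) = -b + -2 := by ring
  have h2 : 2 + -b = -b + 2 := by ring
  rw [h1, h2]
  ring

theorem comb_X (b : ℤ) : C (LaurentPolynomial.T (-2 : ℤ)) * lin b - lin (b + 2) =
    C (LaurentPolynomial.T b * (LaurentPolynomial.T (-2) - LaurentPolynomial.T 2) :
      LaurentPolynomial ℤ) * X := by
  unfold lin
  rw [mul_sub, ← mul_assoc, ← C_mul, ← C_mul, ← LaurentPolynomial.T_add, ← LaurentPolynomial.T_add]
  rw [mul_sub, ← LaurentPolynomial.T_add, ← LaurentPolynomial.T_add, C_sub]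
  have h1 : -2 + -b = -(b + 2) := by ring
  have h2 : -2 + b = b + -2 := by ring
  rw [h1, h2]
  ring

theorem comb_pair (e : ℤ) : lin e * lin e - lin (e + 1) * lin (e - 1) =
    C (LaurentPolynomial.T 2 + LaurentPolynomial.T (-2) - 2 : LaurentPolynomial ℤ) * X := by
  unfold lin
  have a1 : (C (LaurentPolynomial.T e) * C (LaurentPolynomial.T e) :
      Polynomial (LaurentPolynomial ℤ)) =
      C (LaurentPolynomial.T (e + 1)) * C (LaurentPolynomial.T (e - 1)) := by
    rw [← C_mul, ← C_mul, ← LaurentPolynomial.T_add, ← LaurentPolynomial.T_add]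
    congr 2
    ring
  have a2 : (C (LaurentPolynomial.T (-e)) * C (LaurentPolynomial.T (-e)) :
      Polynomial (LaurentPolynomial ℤ)) =
      C (LaurentPolynomial.T (-(e + 1))) * C (LaurentPolynomial.T (-(e - 1))) := by
    rw [← C_mul, ← C_mul, ← LaurentPolynomial.T_add, ← LaurentPolynomial.T_add]
    congr 2
    ring
  have a3 : (C (LaurentPolynomial.T e) * C (LaurentPolynomial.T (-e)) :
      Polynomial (LaurentPolynomial ℤ)) = 1 := by
    rw [← C_mul, ← LaurentPolynomial.T_add, add_neg_cancel, LaurentPolynomial.T_zero, C_1]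
  have a4 : (C (LaurentPolynomial.T (e + 1)) * C (LaurentPolynomial.T (-(e - 1))) :
      Polynomial (LaurentPolynomial ℤ)) = C (LaurentPolynomial.T 2) := by
    rw [← C_mul, ← LaurentPolynomial.T_add]
    congr 2
    ring
  have a5 : (C (LaurentPolynomial.T (e - 1)) * C (LaurentPolynomial.T (-(e + 1))) :
      Polynomial (LaurentPolynomial ℤ)) = C (LaurentPolynomial.T (-2)) := by
    rw [← C_mul, ← LaurentPolynomial.T_add]
    congr 2
    ring
  have a6 : (C (LaurentPolynomial.T 2 + LaurentPolynomial.T (-2) - 2 : LaurentPolynomial ℤ)) =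
      C (LaurentPolynomial.T 2) + C (LaurentPolynomial.T (-2)) - 2 := by
    rw [C_sub, C_add]
    congr 1
  rw [a6, ← a4, ← a5]
  linear_combination (X ^ 2 : Polynomial (LaurentPolynomial ℤ)) * a1 + a2 - 2 * X * a3

theorem pair_ne : (LaurentPolynomial.T 2 + LaurentPolynomial.T (-2) - 2 :
    LaurentPolynomial ℤ) ≠ 0 := by
  have h : (LaurentPolynomial.T 2 + LaurentPolynomial.T (-2) - 2 : LaurentPolynomial ℤ) =
      (LaurentPolynomial.T 1 - LaurentPolynomial.T (-1)) ^ 2 := by
    have h1 : (LaurentPolynomial.T 1 * LaurentPolynomial.T (-1) : LaurentPolynomial ℤ) = 1 := by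
      rw [← LaurentPolynomial.T_add]
      simp
    have h2 : (LaurentPolynomial.T 2 : LaurentPolynomial ℤ) =
        LaurentPolynomial.T 1 * LaurentPolynomial.T 1 := by
      rw [← LaurentPolynomial.T_add]
      norm_num
    have h3 : (LaurentPolynomial.T (-2) : LaurentPolynomial ℤ) =
        LaurentPolynomial.T (-1) * LaurentPolynomial.T (-1) := by
      rw [← LaurentPolynomial.T_add]
      norm_num
    rw [h2, h3]
    linear_combination (2 : LaurentPolynomial ℤ) * h1
  rw [h]
  exact pow_ne_zero _ (sub_ne_zero.2 (T_ne_of_ne (by norm_num)))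

/-- The span lemma. -/
theorem span_lem (b : ℤ) (B : ℕ) :
    ∀ Λ : Polynomial (LaurentPolynomial ℤ) →ₗ[LaurentPolynomial ℤ] LaurentPolynomial ℤ,
    (∀ d : Fin B → ℤ, (∀ j, d j = b ∨ d j = b + 2) → Λ (∏ j, lin (d j)) = 0) →
    ∀ m ≤ B, Λ (X ^ m) = 0 := by
  induction B with
  | zero =>
    intro Λ h m hm
    have h0 := h (fun j => j.elim0) (fun j => j.elim0)
    rw [Nat.le_zero.1 hm, pow_zero]
    simpa using h0
  | succ B ih =>
    intro Λ h m hm
    have key : ∀ e : ℤ, (e = b ∨ e = b + 2) → ∀ m ≤ B, Λ (lin e * X ^ m) = 0 := by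
      intro e he
      refine ih (Λ ∘ₗ LinearMap.mulLeft (LaurentPolynomial ℤ) (lin e)) ?_
      intro d hd
      have := h (Fin.cons e d) (fun j => by
        refine Fin.cases ?_ (fun i => ?_) j
        · simpa using he
        · simpa using hd i)
      rw [Fin.prod_univ_succ] at this
      simpa using this
    have k1 : ∀ m ≤ B, Λ (X ^ m) = 0 := by
      intro m hm
      have h1 : Λ ((C (LaurentPolynomial.T (2 : ℤ)) * lin b - lin (b + 2)) * X ^ m) = 0 := by
        rw [sub_mul, map_sub, key (b + 2) (Or.inr rfl) m hm, mul_assoc, ← smul_eq_C_mul,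
          map_smul, key b (Or.inl rfl) m hm, smul_zero, sub_zero]
      rw [comb_one, ← smul_eq_C_mul, map_smul, smul_eq_mul] at h1
      rcases mul_eq_zero.1 h1 with h2 | h2
      · exfalso
        rcases mul_eq_zero.1 h2 with h3 | h3
        · exact (LaurentPolynomial.isUnit_T (R := ℤ) (-b)).ne_zero h3
        · exact delta_ne h3
      · exact h2
    have k2 : ∀ m ≤ B, Λ (X ^ (m + 1)) = 0 := by
      intro m hm
      have h1 : Λ ((C (LaurentPolynomial.T (-2 : ℤ)) * lin b - lin (b + 2)) * X ^ m) = 0 := by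
        rw [sub_mul, map_sub, key (b + 2) (Or.inr rfl) m hm, mul_assoc, ← smul_eq_C_mul,
          map_smul, key b (Or.inl rfl) m hm, smul_zero, sub_zero]
      rw [comb_X, mul_assoc, ← pow_succ', ← smul_eq_C_mul, map_smul, smul_eq_mul] at h1
      rcases mul_eq_zero.1 h1 with h2 | h2
      · exfalso
        rcases mul_eq_zero.1 h2 with h3 | h3
        · exact (LaurentPolynomial.isUnit_T (R := ℤ) b).ne_zero h3
        · exact delta_ne h3
      · exact h2
    rcases Nat.lt_or_ge m (B + 1) with h1 | h1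
    · exact k1 m (by omega)
    · obtain rfl : m = B + 1 := by omega
      exact k2 B le_rfl

/-- The functional `X ^ m ↦ I (2 m - A)`, `m ≤ A`. -/
noncomputable def lam (A : ℕ) (I : ℤ → LaurentPolynomial ℤ) :
    Polynomial (LaurentPolynomial ℤ) →ₗ[LaurentPolynomial ℤ] LaurentPolynomial ℤ where
  toFun f := ∑ m ∈ range (A + 1), f.coeff m * I (2 * m - A)
  map_add' f g := by
    rw [← sum_add_distrib]
    exact sum_congr rfl fun m _ => by rw [coeff_add, add_mul]
  map_smul' r f := by
    rw [RingHom.id_apply, smul_eq_mul, mul_sum]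
    exact sum_congr rfl fun m _ => by rw [coeff_smul, smul_eq_mul, mul_assoc]

theorem lam_apply (A : ℕ) (I : ℤ → LaurentPolynomial ℤ) (f : Polynomial (LaurentPolynomial ℤ)) :
    lam A I f = ∑ m ∈ range (A + 1), f.coeff m * I (2 * m - A) := rfl

theorem lam_pow (A : ℕ) (I : ℤ → LaurentPolynomial ℤ) (m : ℕ) (hm : m ≤ A) :
    lam A I (X ^ m) = I (2 * m - A) := by
  rw [lam_apply, sum_eq_single m]
  · rw [coeff_X_pow_self, one_mul]
  · intro j _ hj
    rw [coeff_X_pow, if_neg hj, zero_mul]
  · intro h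
    exact absurd (mem_range.2 (by omega)) h

theorem lam_zero (A : ℕ) (I : ℤ → LaurentPolynomial ℤ) (b : ℤ)
    (h : ∀ c : Fin A → ℤ, ∑ j, c j = A * b → ∑ j, (c j - b) ^ 2 < 2 * (A : ℤ) ^ 2 →
      ∑ m ∈ range (A + 1), (∏ j, lin (c j)).coeff m * I (2 * m - A) = 0)
    (m : ℕ) (h1 : 1 ≤ m) (h2 : m < A) : I (2 * m - A) = 0 := by
  obtain ⟨B, rfl⟩ : ∃ B, A = B + 2 := ⟨A - 2, by omega⟩
  have key : ∀ q ≤ B, (lam (B + 2) I ∘ₗ
      LinearMap.mulLeft (LaurentPolynomial ℤ) (X : Polynomial (LaurentPolynomial ℤ)))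
      (X ^ q) = 0 := by
    refine span_lem b B _ ?_
    intro d hd
    -- the two completions of d
    classical
    set s : ℕ := #{j | d j = b + 2} with hs
    have hdev : ∀ j, d j - b = if d j = b + 2 then 2 else 0 := by
      intro j
      split_ifs with hj
      · omega
      · rcases hd j with h3 | h3
        · omega
        · exact absurd h3 hj
    have hsum : ∑ j, (d j - b) = 2 * s := by
      rw [sum_congr rfl fun j _ => hdev j, ← sum_filter, sum_const, nsmul_eq_mul, hs]
      ring
    have hsq : ∑ j, (d j - b) ^ 2 = 4 * s := by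
      have : ∀ j ∈ (univ : Finset (Fin B)), (d j - b) ^ 2 = if d j = b + 2 then 4 else 0 := by
        intro j _
        rw [hdev j]
        split_ifs <;> norm_num
      rw [sum_congr rfl this, ← sum_filter, sum_const, nsmul_eq_mul, hs]
      ring
    have hsB : s ≤ B := by
      rw [hs]
      exact (card_filter_le _ _).trans (by simp)
    have hsum' : ∑ j, d j = B * b + 2 * s := by
      have : ∑ j, (d j - b) = ∑ j, d j - B * b := by
        rw [sum_sub_distrib, sum_const, card_univ, Fintype.card_fin, nsmul_eq_mul]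
      rw [hsum] at this
      linarith
    have hsB' : (s : ℤ) ≤ B := by exact_mod_cast hsB
    have hs0 : (0 : ℤ) ≤ s := by positivity
    set e : ℤ := b - s with he
    have g1 := h (Fin.cons e (Fin.cons e d)) (by
      rw [Fin.sum_univ_succ, Fin.sum_univ_succ]
      simp only [Fin.cons_zero, Fin.cons_succ]
      rw [hsum', he]
      push_cast
      ring) (by
      rw [Fin.sum_univ_succ, Fin.sum_univ_succ]
      simp only [Fin.cons_zero, Fin.cons_succ]
      rw [hsq, he]
      push_cast
      nlinarith)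
    have g2 := h (Fin.cons (e + 1) (Fin.cons (e - 1) d)) (by
      rw [Fin.sum_univ_succ, Fin.sum_univ_succ]
      simp only [Fin.cons_zero, Fin.cons_succ]
      rw [hsum', he]
      push_cast
      ring) (by
      rw [Fin.sum_univ_succ, Fin.sum_univ_succ]
      simp only [Fin.cons_zero, Fin.cons_succ]
      rw [hsq, he]
      push_cast
      nlinarith)
    rw [← lam_apply, Fin.prod_univ_succ, Fin.prod_univ_succ] at g1 g2
    simp only [Fin.cons_zero, Fin.cons_succ] at g1 g2
    have g3 : lam (B + 2) I ((lin e * lin e - lin (e + 1) * lin (e - 1)) * ∏ j, lin (d j)) = 0 := by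
      rw [sub_mul, map_sub, mul_assoc, mul_assoc, g1, g2, sub_zero]
    rw [comb_pair, mul_assoc, ← smul_eq_C_mul, map_smul, smul_eq_mul] at g3
    rcases mul_eq_zero.1 g3 with g4 | g4
    · exact absurd g4 pair_ne
    · simpa using g4
  have h3 := key (m - 1) (by omega)
  rw [LinearMap.comp_apply, LinearMap.mulLeft_apply, ← pow_succ'] at h3
  have h4 : m - 1 + 1 = m := by omega
  rw [h4, lam_pow _ _ _ (by omega)] at h3
  exact h3

end Pool.Agent.Helper40.Petrie
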